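import Mathlib

open Real Filter Topology Finset

namespace Pool.Agent.Results.MP_85199e_an.Divergent

/-- level of the frequency `n` -/
def lev (n : ℕ) : ℕ := Nat.log 4 (n / 64)

/-- amplitude -/
noncomputable def amp (n : ℕ) : ℝ := 1 / 2 ^ lev n

/-- phase -/
noncomputable def ph (n : ℕ) : ℝ :=
  n * (((n - 64 * 4 ^ lev n) / (2 * 2 ^ lev n) : ℕ) / (8 * 2 ^ lev n : ℝ))
    + (((n - 64 * 4 ^ lev n) / 2 ^ lev n % 2 : ℕ) : ℝ) * (π / 2)

lemma amp_pos (n : ℕ) : 0 < amp n := by unfold amp; positivity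

lemma amp_le (n : ℕ) (hn : 0 < n) : amp n ≤ 16 * (n : ℝ) ^ (-(1 / 2 : ℝ)) := by
  have h1 : n / 64 < 4 ^ (lev n + 1) := Nat.lt_pow_succ_log_self (by norm_num) _
  have h2 : n ≤ 256 * 4 ^ lev n := by rw [pow_succ] at h1; omega
  have h3 : (n : ℝ) ≤ (16 * 2 ^ lev n) ^ 2 := by
    have : (n : ℝ) ≤ 256 * 4 ^ lev n := by exact_mod_cast h2
    rw [mul_pow, ← pow_mul, mul_comm (lev n), pow_mul]
    norm_num
    exact this
  have h4 : √n ≤ 16 * 2 ^ lev n := Real.sqrt_le_iff.2 ⟨by positivity, h3⟩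
  have h5 : 0 < √(n : ℝ) := Real.sqrt_pos.2 (by exact_mod_cast hn)
  rw [Real.rpow_neg (by positivity), ← Real.sqrt_eq_rpow, amp, ← div_eq_mul_inv,
    div_le_div_iff₀ (by positivity) h5]
  linarith

lemma block (k j b l : ℕ) (hj : j < 96 * 2 ^ k) (hb : b < 2) (hl : l < 2 ^ k) (n : ℕ)
    (hn : n = 64 * 4 ^ k + 2 * 2 ^ k * j + b * 2 ^ k + l) :
    amp n = 1 / 2 ^ k ∧ ph n = n * (j / (8 * 2 ^ k : ℝ)) + b * (π / 2) := by
  have h4 : 4 ^ k = 2 ^ k * 2 ^ k := by rw [← Nat.mul_pow]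
  have hL : 0 < 2 ^ k := by positivity
  have hlev : lev n = k := by
    unfold lev
    rw [Nat.log_eq_iff (Or.inr ⟨by norm_num, by
      have : 64 ≤ n := by nlinarith
      omega⟩)]
    constructor
    · rw [Nat.le_div_iff_mul_le (by norm_num)]; nlinarith
    · rw [Nat.div_lt_iff_lt_mul (by norm_num), pow_succ, h4]
      have : 2 * 2 ^ k * (j + 1) ≤ 2 * 2 ^ k * (96 * 2 ^ k) := Nat.mul_le_mul_left _ hj
      nlinarith
  have e0 : n - 64 * 4 ^ k = 2 * 2 ^ k * j + (b * 2 ^ k + l) := by omega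
  have e1 : (n - 64 * 4 ^ k) / (2 * 2 ^ k) = j := by
    rw [e0, Nat.mul_add_div (by positivity), Nat.div_eq_of_lt (by nlinarith), add_zero]
  have e2 : (n - 64 * 4 ^ k) / 2 ^ k % 2 = b := by
    rw [e0, show 2 * 2 ^ k * j + (b * 2 ^ k + l) = 2 ^ k * (2 * j + b) + l by ring,
      Nat.mul_add_div hL, Nat.div_eq_of_lt hl]
    omega
  simp only [amp, ph, hlev, e1, e2, and_self]

theorem result : ∃ a b : ℕ → ℝ,
    (∀ ε : ℝ, 0 < ε → Summable fun n => |a n| ^ (2 + ε) + |b n| ^ (2 + ε)) ∧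
    ∀ x : ℝ, ¬ ∃ s : ℝ, Tendsto
      (fun N : ℕ => ∑ n ∈ Finset.Icc 1 N, (a n * Real.cos (n * x) + b n * Real.sin (n * x)))
      atTop (𝓝 s) := by
  refine ⟨fun n => amp n * cos (ph n), fun n => amp n * sin (ph n), fun ε hε => ?_, ?_⟩
  · have hs : Summable fun n : ℕ => 2 * (16 ^ (2 + ε) * (n : ℝ) ^ (-(1 + ε / 2))) :=
      ((Real.summable_nat_rpow.2 (by linarith)).mul_left _).mul_left _
    rw [← summable_nat_add_iff 1] at hs ⊢
    refine Summable.of_nonneg_of_le (fun n => by positivity) (fun n => ?_) hs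
    have h1 := amp_le (n + 1) (by omega)
    have h0 := amp_pos (n + 1)
    have h2 : ∀ t : ℝ, |t| ≤ 1 → |amp (n + 1) * t| ^ (2 + ε) ≤
        16 ^ (2 + ε) * ((n + 1 : ℕ) : ℝ) ^ (-(1 + ε / 2)) := by
      intro t ht
      have h3 : |amp (n + 1) * t| ≤ 16 * ((n + 1 : ℕ) : ℝ) ^ (-(1 / 2 : ℝ)) := by
        rw [abs_mul, abs_of_pos h0]
        nlinarith [abs_nonneg t]
      refine (Real.rpow_le_rpow (abs_nonneg _) h3 (by linarith)).trans (le_of_eq ?_)
      rw [Real.mul_rpow (by norm_num) (by positivity), ← Real.rpow_mul (by positivity)]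
      congr 2
      ring
    have := h2 _ (abs_cos_le_one (ph (n + 1)))
    have := h2 _ (abs_sin_le_one (ph (n + 1)))
    linarith
  · rintro x ⟨s, hs⟩
    let y := toIcoMod two_pi_pos 0 x
    have hy : y ∈ Set.Ico 0 (0 + 2 * π) := toIcoMod_mem_Ico _ _ _
    have hterm : ∀ n : ℕ, amp n * cos (ph n) * cos (n * x) + amp n * sin (ph n) * sin (n * x)
        = amp n * cos (n * y - ph n) := by
      intro n
      have h1 : x = y + (toIcoDiv two_pi_pos 0 x : ℝ) * (2 * π) := by
        have := toIcoMod_add_toIcoDiv_zsmul two_pi_pos 0 x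
        rw [zsmul_eq_mul] at this
        exact this.symm
      have h2 : (n : ℝ) * x = n * y + ((n * toIcoDiv two_pi_pos 0 x : ℤ) : ℝ) * (2 * π) := by
        push_cast
        conv_lhs => rw [h1]
        ring
      rw [h2, cos_add_int_mul_two_pi, sin_add_int_mul_two_pi, cos_sub]
      ring
    simp only [hterm] at hs
    set t : ℕ → ℝ := fun n => amp n * cos (n * y - ph n) with ht
    have hc := hs.cauchySeq
    rw [Metric.cauchySeq_iff] at hc
    obtain ⟨k, hk⟩ := hc (1 / 4) (by norm_num)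
    have hsum : ∀ N L : ℕ, k < N → |∑ l ∈ range L, t (N + l)| < 1 / 4 := by
      intro N L hN
      obtain ⟨N, rfl⟩ : ∃ M, N = M + 1 := ⟨N - 1, by omega⟩
      have h1 := hk (N + L) (by omega) N (by omega)
      have h2 : ∑ n ∈ Icc 1 (N + L), t n = ∑ n ∈ Icc 1 N, t n + ∑ l ∈ range L, t (N + 1 + l) := by
        induction L with
        | zero => simp
        | succ L ih =>
          rw [← add_assoc, Finset.sum_Icc_succ_top (by omega), sum_range_succ, ih (hk _ (by omega) _ (by omega))]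
          rw [add_assoc, show N + L + 1 = N + 1 + L by ring]
      rw [Real.dist_eq, h2] at h1
      simpa using h1
    have hL : (0:ℝ) < 2 ^ k := by positivity
    let j := ⌊y * (8 * 2 ^ k)⌋₊
    have hj1 : (j : ℝ) ≤ y * (8 * 2 ^ k) := Nat.floor_le (by nlinarith [hy.1])
    have hj2 : y * (8 * 2 ^ k) < j + 1 := Nat.lt_floor_add_one _
    have hj : j < 96 * 2 ^ k := by
      have : (j : ℝ) < 96 * 2 ^ k := by nlinarith [hy.2, pi_le_four]
      exact_mod_cast this
    set z := y - j / (8 * 2 ^ k : ℝ) with hz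
    have hz0 : 0 ≤ z := by rw [hz, sub_nonneg, div_le_iff₀ (by positivity)]; exact hj1
    have hz1 : z * 2 ^ k ≤ 1 / 8 := by
      have : z * 2 ^ k = (y * (8 * 2 ^ k) - j) / 8 := by rw [hz]; field_simp
      rw [this]; linarith
    set N := 64 * 4 ^ k + 2 * 2 ^ k * j with hN
    have hNk : k < N := by
      have : k < 4 ^ k := Nat.lt_pow_self (by norm_num)
      omega
    have key : ∀ b : ℕ, b < 2 → |cos (N * z - b * (π / 2))| < 1 / 2 := by
      intro b hb
      have h1 := hsum (N + b * 2 ^ k) (2 ^ k) (by omega)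
      have h2 : |∑ l ∈ range (2 ^ k), t (N + b * 2 ^ k + l) - cos (N * z - b * (π / 2))| ≤ 1 / 4 := by
        have e : cos (N * z - b * (π / 2))
            = ∑ _l ∈ range (2 ^ k), 1 / 2 ^ k * cos (N * z - b * (π / 2)) := by
          simp only [sum_const, card_range, nsmul_eq_mul]
          push_cast
          field_simp
        rw [e, ← sum_sub_distrib]
        refine (abs_sum_le_sum_abs _ _).trans ?_
        have e2 : (1 / 4 : ℝ) = ∑ _l ∈ range (2 ^ k), 1 / 2 ^ k * (1 / 4 : ℝ) := by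
          simp only [sum_const, card_range, nsmul_eq_mul]
          push_cast
          field_simp
        rw [e2]
        refine sum_le_sum fun l hl => ?_
        rw [mem_range] at hl
        obtain ⟨h3, h4⟩ := block k j b l hj hb hl _ rfl
        simp only [ht]
        rw [← hN] at h3 h4
        rw [h3, h4, ← mul_sub, abs_mul, abs_of_pos (by positivity)]
        refine mul_le_mul_of_nonneg_left ((abs_cos_sub_cos_le _ _).trans ?_) (by positivity)
        have h5 : ((N + b * 2 ^ k + l : ℕ) : ℝ) * y - (((N + b * 2 ^ k + l : ℕ) : ℝ) *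
            (j / (8 * 2 ^ k)) + b * (π / 2)) - (N * z - b * (π / 2)) = (b * 2 ^ k + l) * z := by
          rw [hz]; push_cast; ring
        have h6 : (b : ℝ) ≤ 1 := by exact_mod_cast (by omega : b ≤ 1)
        have h7 : (l : ℝ) ≤ 2 ^ k := by exact_mod_cast hl.le
        rw [h5, abs_of_nonneg (by positivity)]
        nlinarith [mul_le_mul_of_nonneg_right h7 hz0, mul_nonneg hz0 hL.le]
      rw [abs_lt] at h1 ⊢
      rw [abs_le] at h2
      constructor <;> linarith
    have k0 := key 0 (by norm_num)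
    have k1 := key 1 (by norm_num)
    simp only [Nat.cast_zero, zero_mul, sub_zero, Nat.cast_one, one_mul, cos_sub_pi_div_two] at k0 k1
    have := cos_sq_add_sin_sq (N * z)
    rw [abs_lt] at k0 k1
    nlinarith

end Pool.Agent.Results.MP_85199e_an.Divergent
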